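import Mathlib
import Pool.Agent.H892.KT.EN

/-!
# Project EN: linear Kato data have conjugation data (ST3)
-/

set_option autoImplicit false

open Filter Topology Set

namespace Pool.Agent.H813.KT

open Pool.Agent.H892.KT

/-- the linear map `(a, b) ↦ (c a + p b, τ b)` -/
theorem exists_lin (c p τ : ℂ) (hc : c ≠ 0) (hτ : τ ≠ 0) :
    ∃ A : (ℂ × ℂ) ≃L[ℂ] (ℂ × ℂ), ∀ y, A y = (c * y.1 + p * y.2, τ * y.2) := by
  let L : (ℂ × ℂ) →ₗ[ℂ] (ℂ × ℂ) :=
    { toFun := fun y => (c * y.1 + p * y.2, τ * y.2)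
      map_add' := by
        intro x y
        ext
        · show c * (x.1 + y.1) + p * (x.2 + y.2) = c * x.1 + p * x.2 + (c * y.1 + p * y.2)
          ring
        · show τ * (x.2 + y.2) = τ * x.2 + τ * y.2
          ring
      map_smul' := by
        intro m x
        ext
        · show c * (m * x.1) + p * (m * x.2) = m * (c * x.1 + p * x.2)
          ring
        · show τ * (m * x.2) = m * (τ * x.2)
          ring }
  have hL : ∀ y, L y = (c * y.1 + p * y.2, τ * y.2) := fun _ => rfl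
  have hinj : Function.Injective L := by
    rw [injective_iff_map_eq_zero]
    intro y hy
    rw [hL, Prod.mk_eq_zero] at hy
    obtain ⟨h1, h2⟩ := hy
    have h3 : y.2 = 0 := by
      rcases mul_eq_zero.1 h2 with h | h
      · exact absurd h hτ
      · exact h
    rw [h3, mul_zero, add_zero] at h1
    have h4 : y.1 = 0 := by
      rcases mul_eq_zero.1 h1 with h | h
      · exact absurd h hc
      · exact h
    exact Prod.ext h4 h3
  refine ⟨(LinearEquiv.ofInjectiveEndo L hinj).toContinuousLinearEquiv, fun y => ?_⟩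
  show (LinearEquiv.ofInjectiveEndo L hinj) y = _
  rw [LinearEquiv.coe_ofInjectiveEndo]
  exact hL y

theorem exists_ball {n : ℕ} [NeZero n] (V : ZMod n → Set (ℂ × ℂ)) (ho : ∀ i, IsOpen (V i))
    (h0 : ∀ i, (0 : ℂ × ℂ) ∈ V i) :
    ∃ r : ℝ, 0 < r ∧ ∀ i, Metric.ball (0 : ℂ × ℂ) r ⊆ V i := by
  have h1 : (⋂ i, V i) ∈ 𝓝 (0 : ℂ × ℂ) := by
    exact (isOpen_iInter_of_finite ho).mem_nhds (Set.mem_iInter.2 h0)
  obtain ⟨r, hr, hb⟩ := Metric.mem_nhds_iff.1 h1
  exact ⟨r, hr, fun i y hy => Set.mem_iInter.1 (hb hy) i⟩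

theorem hat_zero (q : ℂ × ℂ) : hat q 0 = q := by
  unfold hat
  simp

theorem t_ST3 (h1 : S_JLINBG) : S_ST3 := by
  intro n _ K τ c p hτ hτ1 hc hσ
  have hA : ∀ i, ∃ e : OpenPartialHomeomorph (ℂ × ℂ) (ℂ × ℂ), BG e ∧
      ∀ y, e y = (c i * y.1 + p i * y.2, τ * y.2) := by
    intro i
    obtain ⟨A, hA⟩ := exists_lin (c i) (p i) τ (hc i) hτ
    obtain ⟨e, he, hey⟩ := h1 A
    exact ⟨e, he, fun y => by rw [hey, hA]⟩
  choose e he hey using hA
  obtain ⟨r0, hr0, hball⟩ := exists_ball (fun i => K.U i ∩ (e i).source)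
    (fun i => (K.isOpen_U i).inter (e i).open_source) (fun i => ⟨K.zero_mem i, (he i).mem⟩)
  -- a bound for the coefficients
  set M : ℝ := 1 + ∑ i, (‖c i‖ + ‖p i‖) with hM
  have hMi : ∀ i, ‖c i‖ + ‖p i‖ ≤ M := by
    intro i
    have := Finset.single_le_sum (f := fun i => ‖c i‖ + ‖p i‖)
      (fun j _ => add_nonneg (norm_nonneg _) (norm_nonneg _)) (Finset.mem_univ i)
    rw [hM]
    have h2 : ‖c i‖ + ‖p i‖ ≤ ∑ i, (‖c i‖ + ‖p i‖) := this
    linarith
  have hM1 : 1 ≤ M := by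
    rw [hM]
    have : 0 ≤ ∑ i, (‖c i‖ + ‖p i‖) :=
      Finset.sum_nonneg fun j _ => add_nonneg (norm_nonneg _) (norm_nonneg _)
    linarith
  have hM0 : 0 < M := by linarith
  set r : ℝ := min r0 (min (1 / 2) (1 / M)) with hr
  have hrpos : 0 < r := lt_min hr0 (lt_min (by norm_num) (by positivity))
  have hr1 : r ≤ r0 := min_le_left _ _
  have hr2 : r ≤ 1 / 2 := (min_le_right _ _).trans (min_le_left _ _)
  have hr3 : r ≤ 1 / M := (min_le_right _ _).trans (min_le_right _ _)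
  have hMr : M * r ≤ 1 := by
    rw [le_div_iff₀ hM0] at hr3
    linarith
  have hsub : ∀ i, Metric.ball (0 : ℂ × ℂ) r ⊆ K.U i ∩ (e i).source := fun i =>
    (Metric.ball_subset_ball hr1).trans (hball i)
  have n1 : ∀ y : ℂ × ℂ, ‖y.1‖ ≤ ‖y‖ := fun y => norm_fst_le y
  have n2 : ∀ y : ℂ × ℂ, ‖y.2‖ ≤ ‖y‖ := fun y => norm_snd_le y
  -- the first coordinate
  have ha : ∀ i, ∀ y ∈ Metric.ball (0 : ℂ × ℂ) r, ‖c i * y.1 + p i * y.2‖ ≤ 1 := by
    intro i y hy
    rw [mem_ball_zero_iff] at hy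
    have hy0 := norm_nonneg y
    calc ‖c i * y.1 + p i * y.2‖ ≤ ‖c i‖ * ‖y.1‖ + ‖p i‖ * ‖y.2‖ := by
          refine (norm_add_le _ _).trans ?_
          rw [norm_mul, norm_mul]
      _ ≤ ‖c i‖ * ‖y‖ + ‖p i‖ * ‖y‖ :=
          add_le_add (mul_le_mul_of_nonneg_left (n1 y) (norm_nonneg _))
            (mul_le_mul_of_nonneg_left (n2 y) (norm_nonneg _))
      _ = (‖c i‖ + ‖p i‖) * ‖y‖ := by ring
      _ ≤ M * r := mul_le_mul (hMi i) hy.le hy0 hM0.le
      _ ≤ 1 := hMr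
  have hb : ∀ y ∈ Metric.ball (0 : ℂ × ℂ) r, ‖τ * y.2‖ < r := by
    intro y hy
    rw [mem_ball_zero_iff] at hy
    rw [norm_mul]
    calc ‖τ‖ * ‖y.2‖ ≤ 1 * ‖y.2‖ := mul_le_mul_of_nonneg_right hτ1.le (norm_nonneg _)
      _ = ‖y.2‖ := one_mul _
      _ ≤ ‖y‖ := n2 y
      _ < r := hy
  have hσ' : ∀ i, ∀ y ∈ Metric.ball (0 : ℂ × ℂ) r,
      K.σ i y = (c i * y.1 + p i * y.2, τ * y.2) := fun i y hy => hσ i y (hsub i hy).1
  refine ⟨{
    V := fun _ => Metric.ball 0 r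
    w := fun _ _ => 0
    e := e
    r := r
    r_pos := hrpos
    r_le := hr2
    bg := he
    isOpen_V := fun _ => Metric.isOpen_ball
    zero_mem := fun _ => Metric.mem_ball_self hrpos
    subU := fun i y hy => (hsub i hy).1
    small := fun i y hy => mem_ball_zero_iff.1 hy
    maps := ?_
    norm_le := ?_
    w_diff := fun i => differentiableOn_const _
    w_le := ?_
    w_fd := ?_
    mem := ?_
    eq := ?_ }⟩
  · intro i y hy
    rw [hσ' i y hy, mem_ball_zero_iff]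
    have h2 := ha i y hy
    have h3 := hb y hy
    show ‖(((c i * y.1 + p i * y.2) * (τ * y.2), τ * y.2) : ℂ × ℂ)‖ < r
    rw [Prod.norm_mk, max_lt_iff]
    refine ⟨?_, h3⟩
    rw [norm_mul (c i * y.1 + p i * y.2)]
    calc ‖c i * y.1 + p i * y.2‖ * ‖τ * y.2‖ ≤ 1 * ‖τ * y.2‖ :=
          mul_le_mul_of_nonneg_right h2 (norm_nonneg _)
      _ = ‖τ * y.2‖ := one_mul _
      _ < r := h3
  · intro i y hy
    rw [hσ' i y hy, Prod.norm_mk, max_le_iff]
    exact ⟨ha i y hy, (hb y hy).le.trans (by linarith)⟩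
  · intro i y _
    rw [norm_zero]
    positivity
  · intro i y _
    have : fderiv ℂ (fun _ : ℂ × ℂ => (0 : ℂ × ℂ)) y = 0 := fderiv_const_apply 0
    rw [this, norm_zero]
    norm_num
  · intro i y hy
    rw [add_zero]
    exact (hsub i hy).2
  · intro i y hy
    rw [add_zero, hey, hσ' i y hy, hat_zero]

end Pool.Agent.H813.KT
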